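import Pool.Agent.Q205.DG.Main
import Pool.Agent.Q205.DG.Fin
import Pool.Agent.Q208.DG.RHO
import Pool.Agent.Q208.DG.TOT
import Pool.Agent.Q208.DG.RAN
import Pool.Agent.Q208.DG.HH
import Pool.Agent.Q224.DG.Maj
import Pool.Agent.Q224.DG.Red
import Pool.Agent.Q224.DG.Ind
import Pool.Agent.Q202.DG.DL
import Pool.Agent.Q202.DG.L2

/-!
# The distance-1/2 graph on the Turing degrees has diameter three

Definitions (`Pool.Agent.Q205.DG.Stm`, `Pool.Agent.H454R3.Att.Dens`).

* `CoarseSpace` is the metric space of the coarse similarity classes of the subsets of `ℕ`, with the
  metric `δ([A],[B])`, the upper density of the symmetric difference; `cls A` is the class of `A`.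
* `Le A B` is Turing reducibility of sets, `Degree` the set of the Turing degrees, `low d` the set
  of the classes of the sets `A` whose degree is at most `d`.
* `H a b` is the Hausdorff distance of the closures of `low a` and `low b`.
* `graph` has the Turing degrees as vertices, and two distinct degrees `a`, `b` are adjacent exactly
  if `H a b = 1/2`.

The result: the (extended) diameter of `graph` is `3`.

The proof. Call two sets `X`, `Y` coarsely half-close if for every `k` the upper density of their
symmetric difference is at most `1/2 + 1/(2k)`.
Given sets `A`, `B` we force with triples (a class of positive measure effectively closed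
relative to `A` for the first coordinate, the same relative to `B` for the second coordinate, and a
Π⁰₁ class of pairs, the intersection having positive measure) and obtain `C`, `D` such that

* every set computable in `C` is half-close to a set computable in `A` (weighted majority vote: the
  convergence of a functional on the class is bounded by an `A`-computable function, and an
  `A`-computable set is within `1/2 + 1/(2k)` of all values of the functional on a subclass of
  positive measure), and `C` is half-close to every set computable in `A`; so the degrees of `A` and
  `C` are adjacent; the same for `B` and `D`;
* `C` is half-close to every set computable in `D` and conversely; so `C` and `D` are adjacent.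

So any two degrees are joined by a path of length three. The lower bound (known, proved here
again): there is a degree `z` such that every neighbour of `z` (and `z` itself) is of hyperimmune
degree, while every neighbour of `0` is of hyperimmune-free degree; so the distance of `0` and `z` is
at least three.
-/

set_option autoImplicit false

namespace Pool.Agent.Results.MP_af0b0b_lc.Diameter

open Pool.Agent.Q205.DG

/-- The diameter of the graph of the Turing degrees in which two distinct degrees are adjacent
exactly if the Hausdorff distance of their closures (in the metric space of the coarse similarity
classes) is `1/2` is equal to `3`. -/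
theorem result : graph.ediam = 3 :=
  fin_of
    (main_of Pool.Agent.Q208.DG.task_TOT (Pool.Agent.Q208.DG.task_RAN Pool.Agent.Q208.DG.task_TAIL)
      (Pool.Agent.Q224.DG.t_maj Pool.Agent.Q208.DG.task_RHO) Pool.Agent.Q224.DG.t_red
      (Pool.Agent.Q224.DG.t_ind Pool.Agent.Q208.DG.task_TAIL))
    Pool.Agent.Q208.DG.task_HH Pool.Agent.Q202.DG.dis Pool.Agent.Q202.DG.l1 Pool.Agent.Q202.DG.l2

end Pool.Agent.Results.MP_af0b0b_lc.Diameter
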